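import Pool.Agent.Y424.FR.Iso

/-!
# The number of tuples of vectors with all products equal to one
-/

set_option autoImplicit false

namespace Pool.Agent.Y424.FR

open Finset

variable {m : ℕ}

/-- all the products of different vectors are one -/
def AllOne {k : ℕ} (z : Fin k → E m) : Prop := ∀ i i', i ≠ i' → om (z i) (z i') = 1

theorem om_sum {ι : Type*} (s : Finset ι) (c : ι → ZMod 2) (z : ι → E m) (v : E m) :
    om (∑ i ∈ s, c i • z i) v = ∑ i ∈ s, c i * om (z i) v := by
  classical
  induction s using Finset.induction_on with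
  | empty => simp [om]
  | insert a s ha ih => rw [sum_insert ha, sum_insert ha, om_add, om_smul, ih]

/-- such vectors are almost independent -/
theorem le_finrank {k : ℕ} (z : Fin k → E m) (hz : AllOne z) :
    k ≤ Module.finrank (ZMod 2) (Submodule.span (ZMod 2) (Set.range z)) + 1 := by
  let L : (Fin k → ZMod 2) →ₗ[ZMod 2] E m := Fintype.linearCombination (ZMod 2) z
  have hL : ∀ c, L c = ∑ i, c i • z i := fun c => Fintype.linearCombination_apply (ZMod 2) z c
  have hr : LinearMap.range L = Submodule.span (ZMod 2) (Set.range z) :=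
    Fintype.range_linearCombination (ZMod 2) z
  have h1 := LinearMap.finrank_range_add_finrank_ker L
  rw [hr, Module.finrank_fin_fun] at h1
  have hker : LinearMap.ker L ≤ Submodule.span (ZMod 2) {(fun _ => 1 : Fin k → ZMod 2)} := by
    intro c hc
    rw [LinearMap.mem_ker, hL] at hc
    rw [Submodule.mem_span_singleton]
    refine ⟨∑ i, c i, ?_⟩
    funext l
    have h2 : om (∑ i, c i • z i) (z l) = 0 := by
      rw [hc]
      simp [om]
    rw [om_sum] at h2
    have h3 : ∀ i, c i * om (z i) (z l) = c i + if i = l then c l else 0 := by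
      intro i
      by_cases hi : i = l
      · rw [hi, om_self, mul_zero, if_pos rfl]
        generalize c l = a
        revert a
        decide
      · rw [hz i l hi, mul_one, if_neg hi, add_zero]
    rw [sum_congr rfl (fun i _ => h3 i), sum_add_distrib, Finset.sum_ite_eq' univ l,
      if_pos (mem_univ l)] at h2
    simp only [Pi.smul_apply, smul_eq_mul, mul_one]
    generalize ∑ i, c i = a at h2 ⊢
    generalize c l = b at h2 ⊢
    revert a b
    decide
  have h2 := Submodule.finrank_mono hker
  have h3 := finrank_span_le_card (R := ZMod 2) ({(fun _ => 1 : Fin k → ZMod 2)} :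
    Set (Fin k → ZMod 2))
  simp only [Set.toFinset_singleton, card_singleton] at h3
  omega

open Classical in
/-- the number of vectors whose products with the given ones are all one -/
theorem card_ext {k : ℕ} (z : Fin k → E m) :
    (univ.filter (fun y : E m => ∀ i, om y (z i) = 1)).card *
      2 ^ Module.finrank (ZMod 2) (Submodule.span (ZMod 2) (Set.range z)) ≤ 2 ^ (2 * m) := by
  set U := Submodule.span (ZMod 2) (Set.range z) with hU
  rcases (univ.filter (fun y : E m => ∀ i, om y (z i) = 1)).eq_empty_or_nonempty with he | ⟨y₀, hy₀⟩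
  · rw [he, card_empty, zero_mul]
    exact Nat.zero_le _
  · have hy₀' := (mem_filter.1 hy₀).2
    have h1 : (univ.filter (fun y : E m => ∀ i, om y (z i) = 1)).card ≤
        (univ.filter (fun v : E m => v ∈ orth U)).card := by
      apply card_le_card_of_injOn (fun y => y + y₀)
      · intro y hy
        have hy' := (mem_filter.1 (mem_coe.1 hy)).2
        refine mem_coe.2 (mem_filter.2 ⟨mem_univ _, ?_⟩)
        rw [mem_orth]
        intro u hu
        rw [hU] at hu
        induction hu using Submodule.span_induction with
        | mem x hx =>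
          obtain ⟨i, rfl⟩ := hx
          rw [om_comm, om_add, hy' i, hy₀' i]
          decide
        | zero => simp [om]
        | add x x' _ _ hx hx' => rw [om_add, hx, hx', add_zero]
        | smul a x _ hx => rw [om_smul, hx, mul_zero]
      · intro y _ y' _ h
        exact add_right_cancel h
    rw [card_sub, finrank_orth] at h1
    calc _ ≤ 2 ^ (2 * m - Module.finrank (ZMod 2) U) * 2 ^ Module.finrank (ZMod 2) U :=
          Nat.mul_le_mul h1 le_rfl
      _ = 2 ^ (2 * m) := by
          rw [← pow_add, Nat.sub_add_cancel (finrank_le U)]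

/-- `(k - 1) (k - 2) / 2` -/
def cl : ℕ → ℕ
  | 0 => 0
  | n + 1 => cl n + (n - 1)

open Classical in
theorem card_allOne : ∀ k : ℕ,
    (univ.filter (fun z : Fin k → E m => AllOne z)).card * 2 ^ cl k ≤ 2 ^ (2 * m * k) := by
  intro k
  induction k with
  | zero =>
    have h1 : (univ.filter (fun z : Fin 0 → E m => AllOne z)).card ≤ 1 := by
      refine (card_le_univ _).trans ?_
      simp
    simpa [cl] using h1
  | succ k ih =>
    have hstep : (univ.filter (fun z : Fin (k + 1) → E m => AllOne z)).card ≤
        ∑ z ∈ univ.filter (fun z : Fin k → E m => AllOne z),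
          (univ.filter (fun y : E m => ∀ i, om y (z i) = 1)).card := by
      rw [← card_sigma]
      apply card_le_card_of_injOn (fun z => (⟨fun i => z i.succ, z 0⟩ : (_ : Fin k → E m) × (E m)))
      · intro z hz
        have hz' := (mem_filter.1 (mem_coe.1 hz)).2
        refine mem_coe.2 (mem_sigma.2 ⟨mem_filter.2 ⟨mem_univ _, ?_⟩,
          mem_filter.2 ⟨mem_univ _, ?_⟩⟩)
        · intro i i' hi
          exact hz' _ _ (fun h => hi (Fin.succ_injective _ h))
        · intro i
          exact hz' _ _ (Fin.succ_ne_zero i).symm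
      · intro z _ z' _ h
        have h1 := congrArg Sigma.fst h
        have h2 := congrArg (fun w : (_ : Fin k → E m) × (E m) => w.2) h
        simp only at h1 h2
        funext i
        refine Fin.cases h2 (fun i => congrFun h1 i) i
    have h2 : ∀ z ∈ univ.filter (fun z : Fin k → E m => AllOne z),
        (univ.filter (fun y : E m => ∀ i, om y (z i) = 1)).card * 2 ^ (k - 1) ≤ 2 ^ (2 * m) := by
      intro z hz
      refine le_trans ?_ (card_ext z)
      apply Nat.mul_le_mul le_rfl
      apply Nat.pow_le_pow_right (by norm_num)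
      have := le_finrank z (mem_filter.1 hz).2
      omega
    calc (univ.filter (fun z : Fin (k + 1) → E m => AllOne z)).card * 2 ^ cl (k + 1) ≤
        (∑ z ∈ univ.filter (fun z : Fin k → E m => AllOne z),
          (univ.filter (fun y : E m => ∀ i, om y (z i) = 1)).card) * 2 ^ cl (k + 1) :=
          Nat.mul_le_mul hstep le_rfl
      _ = (∑ z ∈ univ.filter (fun z : Fin k → E m => AllOne z),
          (univ.filter (fun y : E m => ∀ i, om y (z i) = 1)).card * 2 ^ (k - 1)) * 2 ^ cl k := by
          rw [← sum_mul, mul_assoc, ← pow_add]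
          congr 2
          simp only [cl]
          ring
      _ ≤ (∑ _z ∈ univ.filter (fun z : Fin k → E m => AllOne z), 2 ^ (2 * m)) * 2 ^ cl k :=
          Nat.mul_le_mul (sum_le_sum h2) le_rfl
      _ = 2 ^ (2 * m) * ((univ.filter (fun z : Fin k → E m => AllOne z)).card * 2 ^ cl k) := by
          rw [sum_const, smul_eq_mul]
          ring
      _ ≤ 2 ^ (2 * m) * 2 ^ (2 * m * k) := Nat.mul_le_mul le_rfl ih
      _ = 2 ^ (2 * m * (k + 1)) := by
          rw [← pow_add]
          congr 1
          ring

/-! ### Restriction of functions -/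

open Classical in
/-- the functions whose restriction to the image of `e` lies in a given set -/
theorem card_comp {A : Type*} [AddGroup A] [Fintype A] {k N : ℕ} (e : Fin k → Fin N)
    (he : Function.Injective e) (P : (Fin k → A) → Prop) :
    (univ.filter (fun f : Fin N → A => P (f ∘ e))).card * Fintype.card A ^ k =
      (univ.filter (fun g : Fin k → A => P g)).card * Fintype.card A ^ N := by
  -- all fibres have the same size
  have hfib : ∀ g g' : Fin k → A, (univ.filter (fun f : Fin N → A => f ∘ e = g)).card ≤
      (univ.filter (fun f : Fin N → A => f ∘ e = g')).card := by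
    intro g g'
    apply card_le_card_of_injOn (fun f => f + Function.extend e (-g + g') 0)
    · intro f hf
      have hf' := (mem_filter.1 (mem_coe.1 hf)).2
      refine mem_coe.2 (mem_filter.2 ⟨mem_univ _, ?_⟩)
      funext i
      have h1 : f (e i) = g i := congrFun hf' i
      simp only [Function.comp_apply, Pi.add_apply]
      rw [he.extend_apply, h1]
      simp only [Pi.add_apply, Pi.neg_apply]
      rw [← add_assoc, add_neg_cancel, zero_add]
    · intro f _ f' _ h
      exact add_right_cancel h
  have hfib' : ∀ g : Fin k → A, (univ.filter (fun f : Fin N → A => f ∘ e = g)).card =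
      (univ.filter (fun f : Fin N → A => f ∘ e = 0)).card :=
    fun g => le_antisymm (hfib _ _) (hfib _ _)
  set t := (univ.filter (fun f : Fin N → A => f ∘ e = 0)).card with ht
  have h1 : (univ.filter (fun f : Fin N → A => P (f ∘ e))).card =
      (univ.filter (fun g : Fin k → A => P g)).card * t := by
    have h2 : (univ.filter (fun f : Fin N → A => P (f ∘ e))).card =
        ∑ g ∈ univ.filter (fun g : Fin k → A => P g),
          ((univ.filter (fun f : Fin N → A => P (f ∘ e))).filter (fun f => f ∘ e = g)).card :=
      card_eq_sum_card_fiberwise (fun f hf => mem_coe.2 (mem_filter.2 ⟨mem_univ _,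
        (mem_filter.1 (mem_coe.1 hf)).2⟩))
    rw [h2]
    have h3 : ∀ g ∈ univ.filter (fun g : Fin k → A => P g),
        ((univ.filter (fun f : Fin N → A => P (f ∘ e))).filter (fun f => f ∘ e = g)).card = t := by
      intro g hg
      rw [← hfib' g]
      congr 1
      ext f
      simp only [mem_filter, mem_univ, true_and]
      constructor
      · exact fun h => h.2
      · intro h
        refine ⟨?_, h⟩
        rw [h]
        exact (mem_filter.1 hg).2
    rw [sum_congr rfl h3, sum_const, smul_eq_mul]
  have h4 : Fintype.card A ^ N = Fintype.card A ^ k * t := by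
    have h2 : (univ : Finset (Fin N → A)).card = ∑ g ∈ (univ : Finset (Fin k → A)),
        ((univ : Finset (Fin N → A)).filter (fun f => f ∘ e = g)).card :=
      card_eq_sum_card_fiberwise (fun f _ => mem_coe.2 (mem_univ _))
    rw [card_univ, Fintype.card_fun, Fintype.card_fin, sum_congr rfl (fun g _ => hfib' g),
      sum_const, card_univ, Fintype.card_fun, Fintype.card_fin, smul_eq_mul] at h2
    exact h2
  rw [h1, h4]
  ring

/-! ### The graphs -/

/-- the graph of a family of vectors -/
def vg {N : ℕ} (f : Fin N → E m) : SimpleGraph (Fin N) where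
  Adj x y := om (f x) (f y) = 1
  symm := ⟨fun x y h => by rw [om_comm]; exact h⟩
  loopless := ⟨fun x h => by rw [om_self] at h; exact zero_ne_one h⟩

open Classical in
theorem rank_vg {N : ℕ} (f : Fin N → E m) : ((vg f).adjMatrix (ZMod 2)).rank ≤ 2 * m := by
  let X : Matrix (Fin N) (Fin m ⊕ Fin m) (ZMod 2) :=
    fun x i => Sum.elim (fun i => (f x).1 i) (fun i => (f x).2 i) i
  let Y : Matrix (Fin m ⊕ Fin m) (Fin N) (ZMod 2) :=
    fun i x => Sum.elim (fun i => (f x).2 i) (fun i => (f x).1 i) i
  have h1 : (vg f).adjMatrix (ZMod 2) = X * Y := by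
    ext x y
    rw [Matrix.mul_apply, Fintype.sum_sum_type]
    simp only [X, Y, Sum.elim_inl, Sum.elim_inr]
    rw [← sum_add_distrib]
    have h2 : ∑ i, ((f x).1 i * (f y).2 i + (f x).2 i * (f y).1 i) = om (f x) (f y) := rfl
    rw [h2, SimpleGraph.adjMatrix_apply]
    by_cases h : (vg f).Adj x y
    · rw [if_pos h]
      have h3 : om (f x) (f y) = 1 := h
      exact h3.symm
    · rw [if_neg h]
      have h3 : ¬ om (f x) (f y) = 1 := h
      generalize om (f x) (f y) = a at h3
      revert a
      decide
  rw [h1]
  calc (X * Y).rank ≤ X.rank := Matrix.rank_mul_le_left X Y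
    _ ≤ Fintype.card (Fin m ⊕ Fin m) := Matrix.rank_le_card_width X
    _ = 2 * m := by rw [Fintype.card_sum, Fintype.card_fin]; ring

open Classical in
/-- The union bound. -/
theorem exists_vg (m k N : ℕ)
    (h : N.choose k * ((univ.filter (fun z : Fin k → E m => AllZero z)).card +
      (univ.filter (fun z : Fin k → E m => AllOne z)).card) < 2 ^ (2 * m * k)) :
    ∃ f : Fin N → E m, (vg f).CliqueFree k ∧ (vg f)ᶜ.CliqueFree k := by
  by_contra hcon
  push Not at hcon
  set Z0 := univ.filter (fun z : Fin k → E m => AllZero z) with hZ0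
  set Z1 := univ.filter (fun z : Fin k → E m => AllOne z) with hZ1
  -- the bad functions
  let B : Finset (Fin N) → Finset (Fin N → E m) := fun S =>
    univ.filter (fun f => (∀ x ∈ S, ∀ y ∈ S, x ≠ y → om (f x) (f y) = 0) ∨
      (∀ x ∈ S, ∀ y ∈ S, x ≠ y → om (f x) (f y) = 1))
  have hB : ∀ S : Finset (Fin N), S.card = k →
      (B S).card * 2 ^ (2 * m * k) ≤ (Z0.card + Z1.card) * Fintype.card (E m) ^ N := by
    intro S hS
    let e : Fin k → Fin N := S.orderEmbOfFin hS
    have he : Function.Injective e := (S.orderEmbOfFin hS).injective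
    have heS : ∀ i, e i ∈ S := fun i => S.orderEmbOfFin_mem hS i
    have hsub : B S ⊆ univ.filter (fun f : Fin N → E m => AllZero (f ∘ e)) ∪
        univ.filter (fun f : Fin N → E m => AllOne (f ∘ e)) := by
      intro f hf
      rcases (mem_filter.1 hf).2 with h1 | h1
      · refine mem_union_left _ (mem_filter.2 ⟨mem_univ _, fun i i' hi => ?_⟩)
        exact h1 _ (heS i) _ (heS i') (fun h => hi (he h))
      · refine mem_union_right _ (mem_filter.2 ⟨mem_univ _, fun i i' hi => ?_⟩)
        exact h1 _ (heS i) _ (heS i') (fun h => hi (he h))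
    have h1 := (card_le_card hsub).trans (card_union_le _ _)
    have h2 := card_comp e he (fun z : Fin k → E m => AllZero z)
    have h3 := card_comp e he (fun z : Fin k → E m => AllOne z)
    have h4 : Fintype.card (E m) ^ k = 2 ^ (2 * m * k) := by
      rw [card_E, ← pow_mul]
    rw [← hZ0, h4] at h2
    rw [← hZ1, h4] at h3
    calc (B S).card * 2 ^ (2 * m * k) ≤ (_ + _) * 2 ^ (2 * m * k) := Nat.mul_le_mul h1 le_rfl
      _ = (Z0.card + Z1.card) * Fintype.card (E m) ^ N := by
          rw [add_mul, h2, h3, add_mul]
  have hcover : (univ : Finset (Fin N → E m)) ⊆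
      (univ.powersetCard k : Finset (Finset (Fin N))).biUnion B := by
    intro f _
    by_cases h1 : (vg f).CliqueFree k
    · have h2 := hcon f h1
      rw [SimpleGraph.CliqueFree] at h2
      push Not at h2
      obtain ⟨S, hS⟩ := h2
      refine mem_biUnion.2 ⟨S, mem_powersetCard.2 ⟨subset_univ _, hS.card_eq⟩,
        mem_filter.2 ⟨mem_univ _, Or.inl ?_⟩⟩
      intro x hx y hy hxy
      have h3 := hS.isClique hx hy hxy
      rw [SimpleGraph.compl_adj] at h3
      have h4 : ¬ om (f x) (f y) = 1 := h3.2
      generalize om (f x) (f y) = a at h4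
      revert a
      decide
    · rw [SimpleGraph.CliqueFree] at h1
      push Not at h1
      obtain ⟨S, hS⟩ := h1
      refine mem_biUnion.2 ⟨S, mem_powersetCard.2 ⟨subset_univ _, hS.card_eq⟩,
        mem_filter.2 ⟨mem_univ _, Or.inr ?_⟩⟩
      intro x hx y hy hxy
      exact hS.isClique hx hy hxy
  have h1 := (card_le_card hcover).trans card_biUnion_le
  rw [card_univ, Fintype.card_fun, Fintype.card_fin] at h1
  have h2 : Fintype.card (E m) ^ N * 2 ^ (2 * m * k) ≤
      N.choose k * (Z0.card + Z1.card) * Fintype.card (E m) ^ N := by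
    calc Fintype.card (E m) ^ N * 2 ^ (2 * m * k) ≤
        (∑ S ∈ (univ.powersetCard k : Finset (Finset (Fin N))), (B S).card) * 2 ^ (2 * m * k) :=
          Nat.mul_le_mul h1 le_rfl
      _ = ∑ S ∈ (univ.powersetCard k : Finset (Finset (Fin N))),
            (B S).card * 2 ^ (2 * m * k) := by rw [sum_mul]
      _ ≤ ∑ _S ∈ (univ.powersetCard k : Finset (Finset (Fin N))),
            (Z0.card + Z1.card) * Fintype.card (E m) ^ N :=
          sum_le_sum (fun S hS => hB S (mem_powersetCard.1 hS).2)
      _ = N.choose k * (Z0.card + Z1.card) * Fintype.card (E m) ^ N := by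
          rw [sum_const, card_powersetCard, card_univ, Fintype.card_fin, smul_eq_mul, mul_assoc]
  have hE : 0 < Fintype.card (E m) ^ N := by
    rw [card_E]
    positivity
  have h3 : N.choose k * (Z0.card + Z1.card) * Fintype.card (E m) ^ N <
      2 ^ (2 * m * k) * Fintype.card (E m) ^ N := Nat.mul_lt_mul_of_pos_right h hE
  rw [mul_comm (2 ^ (2 * m * k))] at h3
  exact absurd h2 (not_le.2 h3)

end Pool.Agent.Y424.FR
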