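import Pool.Agent.Y424.FR.Spread

/-!
# Alternating matrices over the field with two elements
-/

set_option autoImplicit false

namespace Pool.Agent.Y424.FR

open Finset Matrix

section
variable {V : Type*} [Fintype V] [DecidableEq V]

/-- one step of the elimination -/
def elim (A : Matrix V V (ZMod 2)) (x₀ y₀ : V) : Matrix V V (ZMod 2) :=
  fun x y => A x y + (A x x₀ * A y y₀ + A x y₀ * A y x₀)

theorem self_add (a : ZMod 2) : a + a = 0 := by
  revert a
  decide

theorem elim_mulVec (A : Matrix V V (ZMod 2)) (hs : ∀ x y, A x y = A y x) (x₀ y₀ : V)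
    (w : V → ZMod 2) (hw : A *ᵥ w = 0) : elim A x₀ y₀ *ᵥ w = 0 := by
  funext u
  have h : ∀ z, ∑ v, A z v * w v = 0 := fun z => congrFun hw z
  have h1 : (elim A x₀ y₀ *ᵥ w) u = ∑ v, A u v * w v + A u x₀ * ∑ v, A y₀ v * w v +
      A u y₀ * ∑ v, A x₀ v * w v := by
    simp only [mulVec, dotProduct, elim]
    rw [mul_sum, mul_sum, ← sum_add_distrib, ← sum_add_distrib]
    apply sum_congr rfl
    intro v _
    rw [hs y₀ v, hs x₀ v]
    ring
  rw [h1, h, h, h]
  simp

theorem elim_single (A : Matrix V V (ZMod 2)) (hs : ∀ x y, A x y = A y x) (h0 : ∀ x, A x x = 0)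
    (x₀ y₀ : V) (h1 : A x₀ y₀ = 1) (a b : ZMod 2) :
    elim A x₀ y₀ *ᵥ (a • Pi.single x₀ 1 + b • Pi.single y₀ 1) = 0 := by
  have e1 : elim A x₀ y₀ *ᵥ Pi.single x₀ 1 = 0 := by
    rw [mulVec_single_one]
    funext u
    change elim A x₀ y₀ u x₀ = 0
    simp only [elim]
    rw [h1, h0 x₀, mul_one, mul_zero, add_zero]
    exact self_add _
  have e2 : elim A x₀ y₀ *ᵥ Pi.single y₀ 1 = 0 := by
    rw [mulVec_single_one]
    funext u
    change elim A x₀ y₀ u y₀ = 0
    simp only [elim]
    rw [hs y₀ x₀, h1, h0 y₀, mul_one, mul_zero, zero_add]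
    exact self_add _
  rw [mulVec_add, mulVec_smul, mulVec_smul, e1, e2]
  simp

theorem rank_elim (A : Matrix V V (ZMod 2)) (hs : ∀ x y, A x y = A y x) (h0 : ∀ x, A x x = 0)
    (x₀ y₀ : V) (h1 : A x₀ y₀ = 1) : (elim A x₀ y₀).rank + 2 ≤ A.rank := by
  haveI : Fact (Nat.Prime 2) := ⟨Nat.prime_two⟩
  have hk1 := LinearMap.finrank_range_add_finrank_ker A.mulVecLin
  have hk2 := LinearMap.finrank_range_add_finrank_ker (elim A x₀ y₀).mulVecLin
  have hker : Module.finrank (ZMod 2) (LinearMap.ker A.mulVecLin) + 2 ≤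
      Module.finrank (ZMod 2) (LinearMap.ker (elim A x₀ y₀).mulVecLin) := by
    let L : (LinearMap.ker A.mulVecLin) × (ZMod 2 × ZMod 2) →ₗ[ZMod 2] (V → ZMod 2) :=
      (LinearMap.ker A.mulVecLin).subtype.coprod
        ((LinearMap.toSpanSingleton (ZMod 2) (V → ZMod 2) (Pi.single x₀ 1)).coprod
          (LinearMap.toSpanSingleton (ZMod 2) (V → ZMod 2) (Pi.single y₀ 1)))
    have hL : ∀ w : (LinearMap.ker A.mulVecLin) × (ZMod 2 × ZMod 2),
        L w = (w.1 : V → ZMod 2) + (w.2.1 • Pi.single x₀ 1 + w.2.2 • Pi.single y₀ 1) := by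
      intro w
      simp only [L, LinearMap.coprod_apply, Submodule.subtype_apply,
        LinearMap.toSpanSingleton_apply]
    have hLk : ∀ w, L w ∈ LinearMap.ker (elim A x₀ y₀).mulVecLin := by
      intro w
      rw [LinearMap.mem_ker, mulVecLin_apply, hL, mulVec_add]
      have hw : A *ᵥ (w.1 : V → ZMod 2) = 0 := by
        have := w.1.2
        rwa [LinearMap.mem_ker, mulVecLin_apply] at this
      rw [elim_mulVec A hs x₀ y₀ _ hw, elim_single A hs h0 x₀ y₀ h1, add_zero]
    have hinj : Function.Injective L := by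
      rw [← LinearMap.ker_eq_bot, LinearMap.ker_eq_bot']
      intro w hw
      have hw1 : A *ᵥ (w.1 : V → ZMod 2) = 0 := by
        have := w.1.2
        rwa [LinearMap.mem_ker, mulVecLin_apply] at this
      have h2 : A *ᵥ (L w) = 0 := by rw [hw, mulVec_zero]
      rw [hL, mulVec_add, hw1, zero_add, mulVec_add, mulVec_smul, mulVec_smul,
        mulVec_single_one, mulVec_single_one] at h2
      have h3 := congrFun h2 y₀
      have h4 := congrFun h2 x₀
      simp only [Pi.add_apply, Pi.smul_apply, smul_eq_mul, Pi.zero_apply, col_apply] at h3 h4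
      rw [hs y₀ x₀, h1, h0 y₀, mul_one, mul_zero, add_zero] at h3
      rw [h1, h0 x₀, mul_one, mul_zero, zero_add] at h4
      have h5 : (w.1 : V → ZMod 2) = 0 := by
        rw [hL, h3, h4] at hw
        simpa using hw
      ext1
      · exact Subtype.ext h5
      · exact Prod.ext h3 h4
    have h6 := LinearMap.finrank_le_finrank_of_injective
      (f := LinearMap.codRestrict (LinearMap.ker (elim A x₀ y₀).mulVecLin) L hLk)
      (fun a b hab => hinj (by
        have := congrArg Subtype.val hab
        simpa using this))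
    rw [Module.finrank_prod, Module.finrank_prod, Module.finrank_self] at h6
    omega
  have h7 : A.rank = Module.finrank (ZMod 2) (LinearMap.range A.mulVecLin) := rfl
  have h8 : (elim A x₀ y₀).rank =
    Module.finrank (ZMod 2) (LinearMap.range (elim A x₀ y₀).mulVecLin) := rfl
  rw [h7, h8]
  omega

/-- An alternating matrix of rank less than `2 (m + 1)` is given by `m` pairs of coordinates. -/
theorem exists_coord : ∀ (m : ℕ) (A : Matrix V V (ZMod 2)), (∀ x y, A x y = A y x) →
    (∀ x, A x x = 0) → A.rank < 2 * (m + 1) →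
    ∃ p q : V → Fin m → ZMod 2, ∀ x y, A x y = form p q x y := by
  intro m
  induction m with
  | zero =>
    intro A hs h0 hr
    refine ⟨fun _ i => i.elim0, fun _ i => i.elim0, fun x y => ?_⟩
    have hf : form (fun _ : V => fun i : Fin 0 => (i.elim0 : ZMod 2)) (fun _ i => i.elim0) x y = 0 := by
      simp [form]
    rw [hf]
    by_contra hne
    have h1 : A x y = 1 := by
      generalize A x y = a at hne
      revert a
      decide
    have := rank_elim A hs h0 x y h1
    omega
  | succ m ih =>
    intro A hs h0 hr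
    by_cases hA : ∃ x₀ y₀, A x₀ y₀ ≠ 0
    · obtain ⟨x₀, y₀, hne⟩ := hA
      have h1 : A x₀ y₀ = 1 := by
        generalize A x₀ y₀ = a at hne
        revert a
        decide
      have h2 := rank_elim A hs h0 x₀ y₀ h1
      obtain ⟨p, q, hpq⟩ := ih (elim A x₀ y₀)
        (fun x y => by simp only [elim]; rw [hs x y]; ring)
        (fun x => by
          simp only [elim]
          rw [h0, zero_add, mul_comm (A x y₀)]
          exact self_add _)
        (by omega)
      refine ⟨fun x => Fin.cons (A x x₀) (p x), fun x => Fin.cons (A x y₀) (q x), fun x y => ?_⟩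
      have h3 : form (fun x => Fin.cons (A x x₀) (p x)) (fun x => Fin.cons (A x y₀) (q x)) x y =
          (A x x₀ * A y y₀ + A x y₀ * A y x₀) + form p q x y := by
        simp only [form]
        rw [Fin.sum_univ_succ]
        simp only [Fin.cons_zero, Fin.cons_succ]
      rw [h3, ← hpq]
      simp only [elim]
      have h4 := self_add (A x x₀ * A y y₀ + A x y₀ * A y x₀)
      rw [add_comm (A x y), ← add_assoc, h4, zero_add]
    · push Not at hA
      refine ⟨fun _ _ => 0, fun _ _ => 0, fun x y => ?_⟩
      rw [hA x y]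
      simp [form]

end

/-- **Large independent sets.** If the adjacency matrix has rank less than `2 (m + 1)` over the
field with two elements there is an independent set with at least `n / (2 ^ m + 1)` vertices. -/
theorem exists_indep {n : ℕ} (G : SimpleGraph (Fin n)) [DecidableRel G.Adj] (m : ℕ)
    (hr : (G.adjMatrix (ZMod 2)).rank < 2 * (m + 1)) :
    ∃ S : Finset (Fin n), G.IsIndepSet S ∧ n ≤ (2 ^ m + 1) * S.card := by
  obtain ⟨p, q, hpq⟩ := exists_coord m (G.adjMatrix (ZMod 2))
    (fun x y => by simp [SimpleGraph.adjMatrix_apply, SimpleGraph.adj_comm])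
    (fun x => by simp [SimpleGraph.adjMatrix_apply]) hr
  obtain ⟨S, hS, hSc⟩ := exists_isotropic p q
  rw [Fintype.card_fin] at hSc
  refine ⟨S, ?_, hSc⟩
  intro x hx y hy _ hadj
  have h1 := hpq x y
  rw [hS x hx y hy, SimpleGraph.adjMatrix_apply, if_pos hadj] at h1
  exact one_ne_zero h1

end Pool.Agent.Y424.FR
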