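import Mathlib

/-!
# The number of tuples of vectors of a symplectic space over the field with two elements whose
# products are all zero, or all one
-/

set_option autoImplicit false

namespace Pool.Agent.Y424.FR

open Finset

instance : Fact (Nat.Prime 2) := ⟨Nat.prime_two⟩

/-- the space of dimension `2 m` -/
abbrev E (m : ℕ) : Type := (Fin m → ZMod 2) × (Fin m → ZMod 2)

variable {m : ℕ}

/-- the symplectic form -/
def om (u v : E m) : ZMod 2 := ∑ i, (u.1 i * v.2 i + u.2 i * v.1 i)

theorem om_comm (u v : E m) : om u v = om v u := by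
  unfold om
  apply sum_congr rfl
  intro i _
  ring

theorem om_self (u : E m) : om u u = 0 := by
  unfold om
  apply sum_eq_zero
  intro i _
  rw [mul_comm (u.2 i)]
  generalize u.1 i * u.2 i = a
  revert a
  decide

theorem om_add (u v w : E m) : om (u + v) w = om u w + om v w := by
  unfold om
  rw [← sum_add_distrib]
  apply sum_congr rfl
  intro i _
  simp only [Prod.fst_add, Prod.snd_add, Pi.add_apply]
  ring

theorem om_smul (c : ZMod 2) (u v : E m) : om (c • u) v = c * om u v := by
  unfold om
  rw [mul_sum]
  apply sum_congr rfl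
  intro i _
  simp only [Prod.smul_fst, Prod.smul_snd, Pi.smul_apply, smul_eq_mul]
  ring

/-- the form as a bilinear map -/
def bil (m : ℕ) : LinearMap.BilinForm (ZMod 2) (E m) :=
  LinearMap.mk₂ (ZMod 2) om om_add om_smul
    (fun u v w => by rw [om_comm, om_add, om_comm v, om_comm w])
    (fun c u v => by rw [om_comm, om_smul, om_comm v, smul_eq_mul])

theorem bil_apply (u v : E m) : bil m u v = om u v := rfl

theorem bil_nondegenerate : (bil m).Nondegenerate := by
  have h : ∀ u : E m, (∀ v, om u v = 0) → u = 0 := by
    intro u hu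
    ext i
    · have := hu (0, Pi.single i 1)
      simp only [om, Pi.zero_apply, mul_zero, add_zero] at this
      rw [Finset.sum_eq_single i] at this
      · simpa using this
      · intro j _ hj
        rw [Pi.single_eq_of_ne hj, mul_zero]
      · intro hi
        exact absurd (mem_univ i) hi
    · have := hu (Pi.single i 1, 0)
      simp only [om, Pi.zero_apply, mul_zero, zero_add] at this
      rw [Finset.sum_eq_single i] at this
      · simpa using this
      · intro j _ hj
        rw [Pi.single_eq_of_ne hj, mul_zero]
      · intro hi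
        exact absurd (mem_univ i) hi
  refine ⟨fun u hu => h u hu, fun u hu => h u (fun v => ?_)⟩
  rw [om_comm]
  exact hu v

theorem finrank_E : Module.finrank (ZMod 2) (E m) = 2 * m := by
  rw [Module.finrank_prod, Module.finrank_fin_fun]
  ring

/-- the orthogonal space -/
def orth (U : Submodule (ZMod 2) (E m)) : Submodule (ZMod 2) (E m) := (bil m).orthogonal U

theorem mem_orth {U : Submodule (ZMod 2) (E m)} {v : E m} :
    v ∈ orth U ↔ ∀ u ∈ U, om u v = 0 := Iff.rfl

theorem finrank_orth (U : Submodule (ZMod 2) (E m)) :
    Module.finrank (ZMod 2) (orth U) = 2 * m - Module.finrank (ZMod 2) U := by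
  unfold orth
  rw [LinearMap.BilinForm.finrank_orthogonal bil_nondegenerate, finrank_E]

theorem finrank_le (U : Submodule (ZMod 2) (E m)) : Module.finrank (ZMod 2) U ≤ 2 * m := by
  rw [← finrank_E]
  exact Submodule.finrank_le U

open Classical in
theorem card_sub (U : Submodule (ZMod 2) (E m)) :
    (univ.filter (fun v : E m => v ∈ U)).card = 2 ^ Module.finrank (ZMod 2) U := by
  have h1 : (univ.filter (fun v : E m => v ∈ U)).card = Fintype.card U := by
    rw [Fintype.card_subtype]
  rw [h1]
  have := Module.card_eq_pow_finrank (K := ZMod 2) (V := U)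
  rw [ZMod.card] at this
  exact this

theorem card_E : Fintype.card (E m) = 2 ^ (2 * m) := by
  rw [Fintype.card_prod, Fintype.card_fun, ZMod.card, Fintype.card_fin, ← pow_add]
  congr 1
  ring

/-- triangular numbers -/
def tri : ℕ → ℕ
  | 0 => 0
  | n + 1 => tri n + (n + 1)

/-! ### Pairwise orthogonal vectors -/

/-- pairwise orthogonal tuples in the orthogonal space of `U` -/
def Iso (U : Submodule (ZMod 2) (E m)) {j : ℕ} (z : Fin j → E m) : Prop :=
  (∀ i, z i ∈ orth U) ∧ ∀ i i', om (z i) (z i') = 0

theorem finrank_isotropic {U : Submodule (ZMod 2) (E m)} (hU : U ≤ orth U) :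
    Module.finrank (ZMod 2) U ≤ m := by
  have h1 := Submodule.finrank_mono hU
  rw [finrank_orth] at h1
  have := finrank_le U
  omega

theorem isotropic_sup {U : Submodule (ZMod 2) (E m)} (hU : U ≤ orth U) {y : E m}
    (hy : y ∈ orth U) : U ⊔ Submodule.span (ZMod 2) {y} ≤
      orth (U ⊔ Submodule.span (ZMod 2) {y}) := by
  intro v hv
  rw [mem_orth]
  intro u hu
  obtain ⟨u1, hu1, u2, hu2, rfl⟩ := Submodule.mem_sup.1 hu
  obtain ⟨v1, hv1, v2, hv2, rfl⟩ := Submodule.mem_sup.1 hv
  obtain ⟨a, rfl⟩ := Submodule.mem_span_singleton.1 hu2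
  obtain ⟨b, rfl⟩ := Submodule.mem_span_singleton.1 hv2
  rw [om_add, om_smul, om_comm u1, om_comm y, om_add, om_add, om_smul, om_smul, om_self]
  rw [om_comm v1 u1, mem_orth.1 (hU hv1) u1 hu1, om_comm y u1, mem_orth.1 hy u1 hu1,
    mem_orth.1 hy v1 hv1]
  ring

theorem finrank_sup {U : Submodule (ZMod 2) (E m)} {y : E m} (hy : y ∉ U) :
    Module.finrank (ZMod 2) (U ⊔ Submodule.span (ZMod 2) {y} : Submodule (ZMod 2) (E m)) =
      Module.finrank (ZMod 2) U + 1 := by
  have h1 := Submodule.finrank_sup_add_finrank_inf_eq U (Submodule.span (ZMod 2) {y})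
  have hy0 : y ≠ 0 := by
    rintro rfl
    exact hy U.zero_mem
  have h2 : U ⊓ Submodule.span (ZMod 2) {y} = ⊥ := by
    rw [Submodule.eq_bot_iff]
    rintro v ⟨hv1, hv2⟩
    obtain ⟨a, rfl⟩ := Submodule.mem_span_singleton.1 hv2
    by_cases ha : a = 0
    · rw [ha, zero_smul]
    · exfalso
      apply hy
      have := U.smul_mem a⁻¹ hv1
      rwa [smul_smul, inv_mul_cancel₀ ha, one_smul] at this
  rw [h2, finrank_bot, add_zero, finrank_span_singleton hy0] at h1
  exact h1

open Classical in
theorem card_iso : ∀ (j : ℕ) (U : Submodule (ZMod 2) (E m)), U ≤ orth U →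
    (univ.filter (fun z : Fin j → E m => Iso U z)).card ≤
      2 ^ (j + m * j + tri (m - Module.finrank (ZMod 2) U)) := by
  intro j
  induction j with
  | zero =>
    intro U _
    have h1 : (univ.filter (fun z : Fin 0 → E m => Iso U z)).card ≤ 1 := by
      refine (card_le_univ _).trans ?_
      simp
    exact h1.trans (Nat.one_le_two_pow)
  | succ j ih =>
    intro U hU
    set d := Module.finrank (ZMod 2) U with hd
    have hdm : d ≤ m := finrank_isotropic hU
    -- the first vector
    have hstep : (univ.filter (fun z : Fin (j + 1) → E m => Iso U z)).card ≤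
        ∑ y ∈ univ.filter (fun y : E m => y ∈ orth U),
          (univ.filter (fun z : Fin j → E m => Iso (U ⊔ Submodule.span (ZMod 2) {y}) z)).card := by
      rw [← card_sigma]
      apply card_le_card_of_injOn (fun z => (⟨z 0, fun i => z i.succ⟩ : (_ : E m) × (Fin j → E m)))
      · intro z hz
        have hz' := (mem_filter.1 (mem_coe.1 hz)).2
        refine mem_coe.2 (mem_sigma.2 ⟨mem_filter.2 ⟨mem_univ _, hz'.1 0⟩,
          mem_filter.2 ⟨mem_univ _, ?_, fun i i' => hz'.2 _ _⟩⟩)
        intro i
        rw [mem_orth]
        intro u hu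
        obtain ⟨u1, hu1, u2, hu2, rfl⟩ := Submodule.mem_sup.1 hu
        obtain ⟨a, rfl⟩ := Submodule.mem_span_singleton.1 hu2
        rw [om_add, om_smul, mem_orth.1 (hz'.1 i.succ) u1 hu1, hz'.2, mul_zero, add_zero]
      · intro z _ z' _ h
        have h1 := congrArg Sigma.fst h
        have h2 := congrArg (fun w : (_ : E m) × (Fin j → E m) => w.2) h
        simp only at h1 h2
        funext i
        refine Fin.cases h1 (fun i => congrFun h2 i) i
    refine hstep.trans ?_
    rw [← sum_filter_add_sum_filter_not _ (fun y : E m => y ∈ U)]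
    have hA : ∑ y ∈ (univ.filter (fun y : E m => y ∈ orth U)).filter (fun y => y ∈ U),
        (univ.filter (fun z : Fin j → E m => Iso (U ⊔ Submodule.span (ZMod 2) {y}) z)).card ≤
        2 ^ (j + m * (j + 1) + tri (m - d)) := by
      have h1 : ∀ y ∈ (univ.filter (fun y : E m => y ∈ orth U)).filter (fun y => y ∈ U),
          (univ.filter (fun z : Fin j → E m =>
            Iso (U ⊔ Submodule.span (ZMod 2) {y}) z)).card ≤ 2 ^ (j + m * j + tri (m - d)) := by
        intro y hy
        have hyU := (mem_filter.1 hy).2
        have h2 : U ⊔ Submodule.span (ZMod 2) {y} = U := by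
          rw [sup_eq_left, Submodule.span_le, Set.singleton_subset_iff]
          exact hyU
        rw [h2]
        exact ih U hU
      refine (sum_le_sum h1).trans ?_
      rw [sum_const, smul_eq_mul]
      have h2 : ((univ.filter (fun y : E m => y ∈ orth U)).filter (fun y => y ∈ U)).card ≤
          2 ^ d := by
        rw [hd, ← card_sub U]
        apply card_le_card
        intro y hy
        exact mem_filter.2 ⟨mem_univ _, (mem_filter.1 hy).2⟩
      calc _ ≤ 2 ^ d * 2 ^ (j + m * j + tri (m - d)) := Nat.mul_le_mul h2 le_rfl
        _ = 2 ^ (d + (j + m * j + tri (m - d))) := by rw [← pow_add]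
        _ ≤ _ := by
            apply Nat.pow_le_pow_right (by norm_num)
            have : m * (j + 1) = m * j + m := by ring
            omega
    have hB : ∑ y ∈ (univ.filter (fun y : E m => y ∈ orth U)).filter (fun y => ¬ y ∈ U),
        (univ.filter (fun z : Fin j → E m => Iso (U ⊔ Submodule.span (ZMod 2) {y}) z)).card ≤
        2 ^ (j + m * (j + 1) + tri (m - d)) := by
      rcases Nat.lt_or_ge d m with hlt | hge
      · have h1 : ∀ y ∈ (univ.filter (fun y : E m => y ∈ orth U)).filter (fun y => ¬ y ∈ U),
            (univ.filter (fun z : Fin j → E m =>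
              Iso (U ⊔ Submodule.span (ZMod 2) {y}) z)).card ≤
              2 ^ (j + m * j + tri (m - (d + 1))) := by
          intro y hy
          have hyU := (mem_filter.1 hy).2
          have hyO := (mem_filter.1 (mem_filter.1 hy).1).2
          have := ih _ (isotropic_sup hU hyO)
          rwa [finrank_sup hyU, ← hd] at this
        refine (sum_le_sum h1).trans ?_
        rw [sum_const, smul_eq_mul]
        have h2 : ((univ.filter (fun y : E m => y ∈ orth U)).filter
            (fun y => ¬ y ∈ U)).card ≤ 2 ^ (2 * m - d) := by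
          refine (card_le_card (filter_subset _ _)).trans ?_
          rw [card_sub, finrank_orth]
        calc _ ≤ 2 ^ (2 * m - d) * 2 ^ (j + m * j + tri (m - (d + 1))) := Nat.mul_le_mul h2 le_rfl
          _ = 2 ^ ((2 * m - d) + (j + m * j + tri (m - (d + 1)))) := by rw [← pow_add]
          _ ≤ _ := by
              apply Nat.pow_le_pow_right (by norm_num)
              obtain ⟨e, he⟩ : ∃ e, m - d = e + 1 := ⟨m - d - 1, by omega⟩
              have he' : m - (d + 1) = e := by omega
              rw [he, he']
              have h3 : tri (e + 1) = tri e + (e + 1) := rfl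
              have h4 : m * (j + 1) = m * j + m := by ring
              rw [h3, h4]
              omega
      · -- no such vectors
        have hempty : (univ.filter (fun y : E m => y ∈ orth U)).filter (fun y => ¬ y ∈ U) = ∅ := by
          rw [Finset.eq_empty_iff_forall_notMem]
          intro y hy
          have hyU := (mem_filter.1 hy).2
          have hyO := (mem_filter.1 (mem_filter.1 hy).1).2
          have h1 := finrank_isotropic (isotropic_sup hU hyO)
          rw [finrank_sup hyU, ← hd] at h1
          omega
        rw [hempty, sum_empty]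
        exact Nat.zero_le _
    calc _ ≤ 2 ^ (j + m * (j + 1) + tri (m - d)) + 2 ^ (j + m * (j + 1) + tri (m - d)) :=
          Nat.add_le_add hA hB
      _ = 2 ^ (j + 1 + m * (j + 1) + tri (m - d)) := by
          rw [← two_mul, ← pow_succ']
          congr 1
          ring

/-- all the products of different vectors are zero -/
def AllZero {k : ℕ} (z : Fin k → E m) : Prop := ∀ i i', i ≠ i' → om (z i) (z i') = 0

open Classical in
/-- The number of pairwise orthogonal tuples. -/
theorem card_allZero (k : ℕ) :
    (univ.filter (fun z : Fin k → E m => AllZero z)).card ≤ 2 ^ (k + m * k + tri m) := by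
  have h := card_iso (m := m) k ⊥ bot_le
  rw [finrank_bot, Nat.sub_zero] at h
  refine le_trans (card_le_card ?_) h
  intro z hz
  have hz' := (mem_filter.1 hz).2
  refine mem_filter.2 ⟨mem_univ _, ?_, ?_⟩
  · intro i
    rw [mem_orth]
    intro u hu
    rw [(Submodule.mem_bot (ZMod 2)).1 hu]
    simp [om]
  · intro i i'
    by_cases h : i = i'
    · rw [h]
      exact om_self _
    · exact hz' i i' h

end Pool.Agent.Y424.FR
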