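import Pool.Agent.Y424.FR.Clq
import Pool.Agent.Y424.FR.Darboux

/-!
# The bounds
-/

set_option autoImplicit false

namespace Pool.Agent.Y424.FR

open Finset

theorem tri_eq (n : ℕ) : (tri n : ℝ) = n * (n + 1) / 2 := by
  induction n with
  | zero => simp [tri]
  | succ n ih =>
    simp only [tri]
    push_cast
    rw [ih]
    ring

theorem cl_eq (n : ℕ) : (cl (n + 1) : ℝ) = n * (n - 1) / 2 := by
  induction n with
  | zero => simp [cl]
  | succ n ih =>
    have h : cl (n + 1 + 1) = cl (n + 1) + n := by simp [cl]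
    rw [h]
    push_cast
    rw [ih]
    ring

theorem choose_le_exp (N k : ℕ) (hk : 1 ≤ k) :
    ((N.choose k : ℕ) : ℝ) ≤ (Real.exp 1 * (N / k)) ^ k := by
  have hk0 : (0 : ℝ) < k := by exact_mod_cast hk
  have h1 : ((N.choose k : ℕ) : ℝ) ≤ (N : ℝ) ^ k / (k.factorial : ℝ) := Nat.choose_le_pow_div k N
  have h2 : (k : ℝ) ^ k / (k.factorial : ℝ) ≤ Real.exp k :=
    Real.pow_div_factorial_le_exp (k : ℝ) hk0.le k
  have hf : (0 : ℝ) < (k.factorial : ℝ) := by exact_mod_cast Nat.factorial_pos k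
  calc ((N.choose k : ℕ) : ℝ) ≤ (N : ℝ) ^ k / (k.factorial : ℝ) := h1
    _ = ((k : ℝ) ^ k / (k.factorial : ℝ)) * ((N : ℝ) / k) ^ k := by
        rw [div_pow]
        field_simp
    _ ≤ Real.exp k * ((N : ℝ) / k) ^ k := mul_le_mul_of_nonneg_right h2 (by positivity)
    _ = (Real.exp 1 * (N / k)) ^ k := by
        rw [mul_pow, ← Real.exp_nat_mul, mul_one]

open Classical in
theorem lower (m k : ℕ) (hk : 1 ≤ k) (hm : m ≤ k) :
    ∃ (n : ℕ) (G : SimpleGraph (Fin n)),
      (k : ℝ) / 16 * 2 ^ ((m : ℝ) - (m : ℝ) ^ 2 / (2 * k)) < (n : ℝ) + 1 ∧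
      (G.adjMatrix (ZMod 2)).rank ≤ 2 * m ∧ G.CliqueFree k ∧ Gᶜ.CliqueFree k := by
  have hk0 : (0 : ℝ) < k := by exact_mod_cast hk
  have hk1 : (1 : ℝ) ≤ k := by exact_mod_cast hk
  have hmR : (m : ℝ) ≤ k := by exact_mod_cast hm
  have hm0 : (0 : ℝ) ≤ m := Nat.cast_nonneg m
  set a : ℝ := (m : ℝ) - (m : ℝ) ^ 2 / (2 * k) with ha
  set N := ⌊(k : ℝ) / 16 * 2 ^ a⌋₊ with hN
  have hN1 : (N : ℝ) ≤ (k : ℝ) / 16 * 2 ^ a := Nat.floor_le (by positivity)
  have hN2 : (k : ℝ) / 16 * 2 ^ a < N + 1 := Nat.lt_floor_add_one _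
  have hkey : N.choose k * ((univ.filter (fun z : Fin k → E m => AllZero z)).card +
      (univ.filter (fun z : Fin k → E m => AllOne z)).card) < 2 ^ (2 * m * k) := by
    have hc : ((N.choose k : ℕ) : ℝ) ≤ 2 ^ ((a - 5 / 2) * k) := by
      refine (choose_le_exp N k hk).trans ?_
      have h1 : Real.exp 1 * ((N : ℝ) / k) ≤ 2 ^ (a - 5 / 2) := by
        have h2 : (N : ℝ) / k ≤ 2 ^ a / 16 := by
          rw [div_le_iff₀ hk0]
          calc (N : ℝ) ≤ (k : ℝ) / 16 * 2 ^ a := hN1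
            _ = 2 ^ a / 16 * k := by ring
        have h3 : Real.exp 1 / 16 ≤ 2 ^ (-(5 / 2) : ℝ) := by
          have h4 : (2 : ℝ) ^ (-(5 / 2) : ℝ) = (Real.sqrt 2 * 4)⁻¹ := by
            rw [Real.rpow_neg (by norm_num)]
            congr 1
            rw [show (5 / 2 : ℝ) = 1 / 2 + 2 by norm_num, Real.rpow_add (by norm_num),
              ← Real.sqrt_eq_rpow]
            norm_num
          rw [h4]
          have h5 : Real.sqrt 2 ≤ 1.4143 := by
            rw [Real.sqrt_le_left (by norm_num)]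
            norm_num
          have h6 := Real.exp_one_lt_d9
          have h7 : (1.4143 * 4 : ℝ)⁻¹ ≤ (Real.sqrt 2 * 4)⁻¹ := by
            apply inv_anti₀ (by positivity)
            linarith
          refine le_trans ?_ h7
          have h8 : Real.exp 1 / 16 ≤ 2.7182818286 / 16 := by linarith
          refine h8.trans ?_
          norm_num
        calc Real.exp 1 * ((N : ℝ) / k) ≤ Real.exp 1 * (2 ^ a / 16) :=
              mul_le_mul_of_nonneg_left h2 (Real.exp_pos _).le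
          _ = Real.exp 1 / 16 * 2 ^ a := by ring
          _ ≤ 2 ^ (-(5 / 2) : ℝ) * 2 ^ a := mul_le_mul_of_nonneg_right h3 (by positivity)
          _ = 2 ^ (a - 5 / 2) := by
              rw [← Real.rpow_add (by norm_num)]
              congr 1
              ring
      calc (Real.exp 1 * ((N : ℝ) / k)) ^ k ≤ (2 ^ (a - 5 / 2)) ^ k :=
            pow_le_pow_left₀ (by positivity) h1 k
        _ = 2 ^ ((a - 5 / 2) * k) := by
            rw [← Real.rpow_natCast, ← Real.rpow_mul (by norm_num)]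
    have hak : a * k = m * k - (m : ℝ) ^ 2 / 2 := by
      rw [ha, sub_mul]
      congr 1
      field_simp
    have h0 : ((univ.filter (fun z : Fin k → E m => AllZero z)).card : ℝ) ≤
        2 ^ ((k : ℝ) + m * k + m * (m + 1) / 2) := by
      have h1 : ((univ.filter (fun z : Fin k → E m => AllZero z)).card : ℝ) ≤
          ((2 ^ (k + m * k + tri m) : ℕ) : ℝ) := by exact_mod_cast card_allZero (m := m) k
      refine h1.trans ?_
      push_cast
      rw [← Real.rpow_natCast]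
      push_cast
      rw [tri_eq]
    have h1 : ((univ.filter (fun z : Fin k → E m => AllOne z)).card : ℝ) ≤
        2 ^ (2 * (m : ℝ) * k - (k - 1) * (k - 2) / 2) := by
      have h2 : ((univ.filter (fun z : Fin k → E m => AllOne z)).card : ℝ) * 2 ^ cl k ≤
          2 ^ (2 * m * k) := by exact_mod_cast card_allOne (m := m) k
      have h3 : (cl k : ℝ) = (k - 1) * (k - 2) / 2 := by
        obtain ⟨j, rfl⟩ : ∃ j, k = j + 1 := ⟨k - 1, by omega⟩
        rw [cl_eq]
        push_cast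
        ring
      rw [Real.rpow_sub (by norm_num), le_div_iff₀ (by positivity), ← h3, Real.rpow_natCast]
      refine h2.trans (le_of_eq ?_)
      rw [← Real.rpow_natCast]
      push_cast
      rfl
    have hP0 : ((N.choose k : ℕ) : ℝ) * ((univ.filter (fun z : Fin k → E m => AllZero z)).card : ℝ) ≤
        1 / 2 * 2 ^ (2 * (m : ℝ) * k) := by
      calc _ ≤ 2 ^ ((a - 5 / 2) * k) * 2 ^ ((k : ℝ) + m * k + m * (m + 1) / 2) :=
            mul_le_mul hc h0 (by positivity) (by positivity)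
        _ = 2 ^ ((a - 5 / 2) * k + ((k : ℝ) + m * k + m * (m + 1) / 2)) := by
            rw [← Real.rpow_add (by norm_num)]
        _ ≤ 2 ^ ((-1 : ℝ) + 2 * (m : ℝ) * k) := by
            apply Real.rpow_le_rpow_of_exponent_le (by norm_num)
            rw [sub_mul, hak]
            nlinarith
        _ = 1 / 2 * 2 ^ (2 * (m : ℝ) * k) := by
            rw [Real.rpow_add (by norm_num), Real.rpow_neg (by norm_num), Real.rpow_one]
            norm_num
    have hP1 : ((N.choose k : ℕ) : ℝ) * ((univ.filter (fun z : Fin k → E m => AllOne z)).card : ℝ) ≤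
        1 / 4 * 2 ^ (2 * (m : ℝ) * k) := by
      calc _ ≤ 2 ^ ((a - 5 / 2) * k) * 2 ^ (2 * (m : ℝ) * k - (k - 1) * (k - 2) / 2) :=
            mul_le_mul hc h1 (by positivity) (by positivity)
        _ = 2 ^ ((a - 5 / 2) * k + (2 * (m : ℝ) * k - (k - 1) * (k - 2) / 2)) := by
            rw [← Real.rpow_add (by norm_num)]
        _ ≤ 2 ^ ((-2 : ℝ) + 2 * (m : ℝ) * k) := by
            apply Real.rpow_le_rpow_of_exponent_le (by norm_num)
            rw [sub_mul, hak]
            nlinarith [sq_nonneg ((k : ℝ) - m)]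
        _ = 1 / 4 * 2 ^ (2 * (m : ℝ) * k) := by
            rw [Real.rpow_add (by norm_num), Real.rpow_neg (by norm_num)]
            norm_num
    have hfin : ((N.choose k * ((univ.filter (fun z : Fin k → E m => AllZero z)).card +
        (univ.filter (fun z : Fin k → E m => AllOne z)).card) : ℕ) : ℝ) <
        ((2 ^ (2 * m * k) : ℕ) : ℝ) := by
      push_cast
      rw [mul_add]
      have h2 : (2 : ℝ) ^ (2 * m * k) = 2 ^ (2 * (m : ℝ) * k) := by
        rw [← Real.rpow_natCast]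
        push_cast
        rfl
      rw [h2]
      have h3 : (0 : ℝ) < 2 ^ (2 * (m : ℝ) * k) := by positivity
      linarith
    exact_mod_cast hfin
  obtain ⟨f, hf1, hf2⟩ := exists_vg m k N hkey
  exact ⟨N, vg f, hN2, rank_vg f, hf1, hf2⟩

open Classical in
theorem upper {n m k : ℕ} (G : SimpleGraph (Fin n)) (hr : (G.adjMatrix (ZMod 2)).rank ≤ 2 * m + 1)
    (hG : Gᶜ.CliqueFree k) : n ≤ (2 ^ m + 1) * (k - 1) := by
  obtain ⟨S, hS, hSn⟩ := exists_indep G m (by omega)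
  refine hSn.trans (Nat.mul_le_mul le_rfl ?_)
  by_contra hcon
  have h1 : k ≤ S.card := by omega
  have h2 := hG.mono h1
  refine h2 S ⟨?_, rfl⟩
  intro x hx y hy hxy
  rw [SimpleGraph.compl_adj]
  exact ⟨hxy, hS hx hy hxy⟩

open Classical in
theorem rate (δ : ℝ) (hδ : 0 < δ) (hδ2 : δ ≤ 2) (ε : ℝ) (hε : 0 < ε) : ∃ k₀ : ℕ, ∀ k : ℕ, k₀ ≤ k →
    (∀ (n : ℕ) (G : SimpleGraph (Fin n)), ((G.adjMatrix (ZMod 2)).rank : ℝ) ≤ δ * k →
      G.CliqueFree k → Gᶜ.CliqueFree k → (n : ℝ) ≤ 2 ^ ((δ / 2 + ε) * k)) ∧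
    (∃ (n : ℕ) (G : SimpleGraph (Fin n)), ((G.adjMatrix (ZMod 2)).rank : ℝ) ≤ δ * k ∧
      G.CliqueFree k ∧ Gᶜ.CliqueFree k ∧ (2 : ℝ) ^ ((δ / 2 - δ ^ 2 / 8) * k) ≤ n) := by
  have hr : (1 : ℝ) < 2 ^ ε := Real.one_lt_rpow (by norm_num) hε
  have hten := tendsto_pow_const_div_const_pow_of_one_lt 1 hr
  obtain ⟨k₁, hk₁⟩ := (hten.eventually
    (gt_mem_nhds (show (0 : ℝ) < 1 / 2 by norm_num))).exists_forall_of_atTop
  refine ⟨max k₁ 64, fun k hk => ?_⟩
  have hkk₁ : k₁ ≤ k := (le_max_left _ _).trans hk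
  have hk64 : 64 ≤ k := (le_max_right _ _).trans hk
  have hkR : (64 : ℝ) ≤ k := by exact_mod_cast hk64
  have hk0 : (0 : ℝ) < k := by linarith
  set m := ⌊δ * k / 2⌋₊ with hm
  have hm1 : (m : ℝ) ≤ δ * k / 2 := Nat.floor_le (by positivity)
  have hm2 : δ * k / 2 < m + 1 := Nat.lt_floor_add_one _
  have hmk : m ≤ k := by
    have : (m : ℝ) ≤ k := by nlinarith
    exact_mod_cast this
  constructor
  · intro n G hG _ h2
    have h3 : (G.adjMatrix (ZMod 2)).rank ≤ 2 * m + 1 := by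
      have : ((G.adjMatrix (ZMod 2)).rank : ℝ) < ((2 * m + 2 : ℕ) : ℝ) := by
        push_cast
        linarith
      have := Nat.cast_lt.1 this
      omega
    have h4 := upper G h3 h2
    have h5 : (n : ℝ) ≤ (2 ^ m + 1) * k := by
      have : n ≤ (2 ^ m + 1) * k := h4.trans (Nat.mul_le_mul le_rfl (by omega))
      exact_mod_cast this
    have h6 : 2 * (k : ℝ) ≤ 2 ^ (ε * k) := by
      have h1 := hk₁ k hkk₁
      rw [div_lt_iff₀ (by positivity), pow_one] at h1
      have h2 : ((2 : ℝ) ^ ε) ^ k = 2 ^ (ε * k) := by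
        rw [← Real.rpow_natCast, ← Real.rpow_mul (by norm_num)]
      rw [h2] at h1
      linarith
    have h7 : (2 : ℝ) ^ m ≤ 2 ^ (δ * k / 2) := by
      rw [← Real.rpow_natCast]
      exact Real.rpow_le_rpow_of_exponent_le (by norm_num) hm1
    have h8 : (1 : ℝ) ≤ 2 ^ m := one_le_pow₀ (by norm_num)
    calc (n : ℝ) ≤ (2 ^ m + 1) * k := h5
      _ ≤ (2 ^ m) * (2 * k) := by nlinarith
      _ ≤ 2 ^ (δ * k / 2) * 2 ^ (ε * k) := mul_le_mul h7 h6 (by positivity) (by positivity)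
      _ = 2 ^ ((δ / 2 + ε) * k) := by
          rw [← Real.rpow_add (by norm_num)]
          congr 1
          ring
  · obtain ⟨n, G, h1, h2, h3, h4⟩ := lower m k (by omega) hmk
    refine ⟨n, G, ?_, h3, h4, ?_⟩
    · have : ((G.adjMatrix (ZMod 2)).rank : ℝ) ≤ 2 * m := by exact_mod_cast h2
      linarith
    · have h5 : (δ / 2 - δ ^ 2 / 8) * k - 1 ≤ (m : ℝ) - (m : ℝ) ^ 2 / (2 * k) := by
        have e1 : (m : ℝ) ^ 2 ≤ (δ * k / 2) ^ 2 := pow_le_pow_left₀ (Nat.cast_nonneg m) hm1 2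
        have e2 : (m : ℝ) ^ 2 / (2 * k) ≤ (δ * k / 2) ^ 2 / (2 * k) :=
          div_le_div_of_nonneg_right e1 (by positivity)
        have e3 : (δ * k / 2) ^ 2 / (2 * k) = δ ^ 2 / 8 * k := by
          field_simp
          ring
        rw [e3] at e2
        have e4 : (δ / 2 - δ ^ 2 / 8) * k = δ * k / 2 - δ ^ 2 / 8 * k := by ring
        rw [e4]
        linarith
      have h6 : (2 : ℝ) ^ ((δ / 2 - δ ^ 2 / 8) * k - 1) ≤ 2 ^ ((m : ℝ) - (m : ℝ) ^ 2 / (2 * k)) :=
        Real.rpow_le_rpow_of_exponent_le (by norm_num) h5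
      have h7 : (2 : ℝ) ^ ((δ / 2 - δ ^ 2 / 8) * k - 1) = 2 ^ ((δ / 2 - δ ^ 2 / 8) * k) / 2 := by
        rw [Real.rpow_sub (by norm_num), Real.rpow_one]
      have h8 : (1 : ℝ) ≤ 2 ^ ((δ / 2 - δ ^ 2 / 8) * k) := by
        apply Real.one_le_rpow (by norm_num)
        apply mul_nonneg _ hk0.le
        nlinarith
      have h9 : 4 * (2 : ℝ) ^ ((m : ℝ) - (m : ℝ) ^ 2 / (2 * k)) ≤
          (k : ℝ) / 16 * 2 ^ ((m : ℝ) - (m : ℝ) ^ 2 / (2 * k)) := by
        apply mul_le_mul_of_nonneg_right _ (by positivity)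
        linarith
      rw [h7] at h6
      linarith

end Pool.Agent.Y424.FR
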