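import Mathlib

/-!
# Sums modulo two of complete tripartite graphs: large independent sets

The alternating form `∑ i, (p x i * q y i + q x i * p y i)` over the field with two elements; the
pairs `(p x, q x)` are identified with points of the plane over the field with `2 ^ m` elements, and
the lines through the origin are totally isotropic.
-/

set_option autoImplicit false

namespace Pool.Agent.Y424.FR

open Finset

/-- the alternating form of the coordinates `p`, `q` -/
def form {V : Type*} {m : ℕ} (p q : V → Fin m → ZMod 2) (x y : V) : ZMod 2 :=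
  ∑ i, (p x i * q y i + q x i * p y i)

section
variable {m : ℕ} {K : Type*} [Field K] [Algebra (ZMod 2) K] [FiniteDimensional (ZMod 2) K]
  [Algebra.IsSeparable (ZMod 2) K]

theorem trace_eq (b : Module.Basis (Fin m) (ZMod 2) K) (p q : Fin m → ZMod 2) :
    Algebra.trace (ZMod 2) K ((∑ i, p i • b i) * (∑ j, q j • b.traceDual j)) = ∑ i, p i * q i := by
  rw [Finset.sum_mul_sum, map_sum]
  apply sum_congr rfl
  intro i _
  rw [map_sum]
  have h : ∀ j, Algebra.trace (ZMod 2) K ((p i • b i) * (q j • b.traceDual j)) =
      if j = i then p i * q i else 0 := by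
    intro j
    rw [smul_mul_smul_comm, map_smul, Module.Basis.trace_mul_traceDual, smul_eq_mul]
    by_cases hj : j = i
    · subst hj
      simp
    · rw [if_neg (fun h => hj h.symm), if_neg hj, mul_zero]
  rw [sum_congr rfl (fun j _ => h j), Finset.sum_ite_eq' univ i, if_pos (mem_univ i)]

theorem form_eq_trace {V : Type*} (b : Module.Basis (Fin m) (ZMod 2) K)
    (p q : V → Fin m → ZMod 2) (x y : V) :
    form p q x y = Algebra.trace (ZMod 2) K
      ((∑ i, p x i • b i) * (∑ j, q y j • b.traceDual j) +
        (∑ i, p y i • b i) * (∑ j, q x j • b.traceDual j)) := by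
  rw [map_add, trace_eq, trace_eq, form, ← sum_add_distrib]
  apply sum_congr rfl
  intro i _
  ring

end

/-- A large set on which the form vanishes. -/
theorem exists_isotropic {V : Type*} [Fintype V] [DecidableEq V] {m : ℕ}
    (p q : V → Fin m → ZMod 2) :
    ∃ S : Finset V, (∀ x ∈ S, ∀ y ∈ S, form p q x y = 0) ∧
      Fintype.card V ≤ (2 ^ m + 1) * S.card := by
  classical
  rcases Nat.eq_zero_or_pos m with rfl | hm
  · refine ⟨univ, fun x _ y _ => by simp [form], ?_⟩
    rw [card_univ]
    omega
  have hm0 : m ≠ 0 := hm.ne'
  haveI : Fact (Nat.Prime 2) := ⟨Nat.prime_two⟩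
  let K := GaloisField 2 m
  have hfin : Module.finrank (ZMod 2) K = m := GaloisField.finrank 2 hm0
  have hcard : Nat.card K = 2 ^ m := GaloisField.card 2 m hm0
  haveI : FiniteDimensional (ZMod 2) K := by
    apply FiniteDimensional.of_finrank_pos
    rw [hfin]
    exact hm
  haveI : Finite K := by
    apply Nat.finite_of_card_ne_zero
    rw [hcard]
    positivity
  haveI : Fintype K := Fintype.ofFinite K
  let b : Module.Basis (Fin m) (ZMod 2) K := Module.finBasisOfFinrankEq (ZMod 2) K hfin
  let P : V → K := fun x => ∑ i, p x i • b i
  let Q : V → K := fun x => ∑ i, q x i • b.traceDual i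
  have hform : ∀ x y, form p q x y = Algebra.trace (ZMod 2) K (P x * Q y + P y * Q x) :=
    fun x y => form_eq_trace b p q x y
  have htwo : ∀ a : K, a + a = 0 := by
    intro a
    have : (2 : K) = 0 := by
      haveI : CharP K 2 := inferInstance
      exact CharTwo.two_eq_zero
    rw [← two_mul, this, zero_mul]
  let s : V → Option K := fun x => if P x = 0 then none else some (Q x / P x)
  have hs : ∀ x y, s x = s y → P x * Q y + P y * Q x = 0 := by
    intro x y h
    simp only [s] at h
    by_cases hx : P x = 0
    · rw [if_pos hx] at h
      by_cases hy : P y = 0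
      · rw [hx, hy, zero_mul, zero_mul, add_zero]
      · rw [if_neg hy] at h
        exact absurd h.symm (by simp)
    · rw [if_neg hx] at h
      by_cases hy : P y = 0
      · rw [if_pos hy] at h
        exact absurd h (by simp)
      · rw [if_neg hy] at h
        have h1 := Option.some.inj h
        rw [div_eq_div_iff hx hy] at h1
        rw [mul_comm (P x), ← h1, mul_comm (P y)]
        exact htwo _
  have hcardO : Fintype.card (Option K) = 2 ^ m + 1 := by
    rw [Fintype.card_option, ← Nat.card_eq_fintype_card, hcard]
  by_contra hcon
  push Not at hcon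
  have h1 : ∀ o : Option K, (2 ^ m + 1) * (univ.filter (fun x => s x = o)).card <
      Fintype.card V := by
    intro o
    apply hcon
    intro x hx y hy
    rw [hform, hs x y ((mem_filter.1 hx).2.trans (mem_filter.1 hy).2.symm), map_zero]
  have h2 : Fintype.card V = ∑ o : Option K, (univ.filter (fun x => s x = o)).card := by
    rw [← card_univ]
    exact card_eq_sum_card_fiberwise (fun x _ => mem_univ (s x))
  have h3 : (2 ^ m + 1) * Fintype.card V < (2 ^ m + 1) * Fintype.card V := by
    calc (2 ^ m + 1) * Fintype.card V =
        ∑ o : Option K, (2 ^ m + 1) * (univ.filter (fun x => s x = o)).card := by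
          rw [← mul_sum, ← h2]
      _ < ∑ _o : Option K, Fintype.card V := by
          apply sum_lt_sum_of_nonempty ⟨none, mem_univ _⟩
          intro o _
          exact h1 o
      _ = (2 ^ m + 1) * Fintype.card V := by
          rw [sum_const, card_univ, hcardO, smul_eq_mul]
  exact lt_irrefl _ h3

end Pool.Agent.Y424.FR
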